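import Pool.Agent.H564R3.SV.Defs
import Pool.Agent.H564R3.PW.Prog
import Pool.Agent.H564R3.PW.Chain

/-! The upper bound: Savitch's recursion with blocks. -/

set_option autoImplicit false

namespace Pool.Agent.H564R3.SV

open Finset
open Pool.Agent.H564R3.PW (Instr runs exec syms)
open Pool.Agent.H564R3.TS
open scoped NNReal

/-- the transition lists -/
def U_tr (h m : ℕ) (c : ℕ) (α β : Fin m) : List (Fin (2 ^ h) × Fin m × Fin m) :=
  if hc : c < 2 ^ h then [(⟨c, hc⟩, α, β)] else []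

theorem U_tr_length (h m c : ℕ) (α β : Fin m) : (U_tr h m c α β).length ≤ 1 := by
  unfold U_tr
  split_ifs <;> simp

theorem U_sum {R : Type} [CommSemiring R] (h m : ℕ) (w : Fin (2 ^ h) × Fin m × Fin m → R) :
    ∑ α : Fin m, ∑ β : Fin m, ((([] : List (Fin (2 ^ h) × Fin m × Fin m))).map w).prod *
      PW.seg w (U_tr h m) h 0 α β = pathSum w := by
  have h1 := PW.L2_path (R := R) (Q := Fin m)
    (fun c α β => ((U_tr h m c α β).map w).prod) (2 ^ h) 0 (fun _ => 1)
  have h2 : ∀ α β : Fin m, ((([] : List (Fin (2 ^ h) × Fin m × Fin m))).map w).prod *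
      PW.seg w (U_tr h m) h 0 α β =
      1 * PW.L2_P (fun c α β => ((U_tr h m c α β).map w).prod) (2 ^ h) 0 α β := by
    intro α β
    rw [PW.L2_seg, List.map_nil, List.prod_nil]
  rw [Finset.sum_congr rfl fun α _ => Finset.sum_congr rfl fun β _ => h2 α β, ← h1]
  unfold pathSum
  refine Finset.sum_congr rfl fun φ _ => ?_
  rw [one_mul]
  unfold PW.L2_W
  refine Finset.prod_congr rfl fun i _ => ?_
  unfold U_tr pv
  beta_reduce
  rw [dif_pos (show 0 + (i : ℕ) < 2 ^ h by rw [zero_add]; exact i.2)]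
  simp

theorem path_upper {R : Type} [CommSemiring R] (h a b : ℕ) :
    ∃ (ρ : Type) (_ : Fintype ρ) (_ : DecidableEq ρ)
      (p : List (Instr R (Fin (2 ^ h) × Fin (a * b) × Fin (a * b)) ρ)) (o : ρ),
      Fintype.card ρ = (h + 2) * b + 3 ∧ p.length ≤ 10 * (a * b) ^ 2 * (2 * a) ^ h ∧
      ∀ w : Fin (2 ^ h) × Fin (a * b) × Fin (a * b) → R, exec w p o = pathSum w := by
  obtain ⟨ρ, i1, i2, p, o, h1, h2, h3⟩ := PW.upper_abs (R := R)
    (X := Fin (2 ^ h) × Fin (a * b) × Fin (a * b)) (Q := Fin (a * b)) (A := Fin a) (B := Fin b)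
    finProdFinEquiv.symm (fun _ => []) (U_tr h (a * b)) 1 (fun _ => by simp)
    (fun c α β => U_tr_length h (a * b) c α β) h
  refine ⟨ρ, i1, i2, p, o, ?_, ?_, ?_⟩
  · rw [h1, Fintype.card_fin]
  · rw [Fintype.card_fin, Fintype.card_fin] at h2
    refine h2.trans (le_of_eq ?_)
    ring
  · intro w
    rw [h3 w]
    exact U_sum h (a * b) w

end Pool.Agent.H564R3.SV
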